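import Pool.Agent.Helper55.SH.LoLB
import Pool.Agent.Helper42.SH.HFend

/-!
# Project RC, SHARP, cell engine: the band blocks `gBP`, `gBR`

`(9 - cs) (SQ p + SQ r) + 3/4 (mu1 + mu2) S1Q p` in helper55's packed form (`hBlk`, constants 0).
`mkB R s`: the integers (computable); `okB R b s T`: kernel check; `bd_p`, `bd_r`: packed blocks;
`lb_p`, `lb_r`: lower bounds with explicit digit bounds and errors; `lbb_p`, `lbb_r`: the pieces of helper42's `Pieces`.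
-/

set_option autoImplicit false

open MeasureTheory Set Filter Topology

namespace Helper68.SH

open Helper49.LT hiding sg
open Helper95.RC Helper95.SH Helper49.Sharp
open Helper54.RC.Fast
open Helper49.Cell (Rec bif_iff)
open Helper43.CL (BR2 LB eP)
open Helper25.SH.Mat (Blk row sgr)
open Helper55.SH
open Helper42.SH (LBB gBP gBR)

/-! ### the integers -/

/-- the integers of the band blocks (scale `2 ^ (s + 1)`) -/
structure BT where
  /-- `9 - cs + 3/4 (mu1 + mu2)` -/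
  gp : ℤ
  /-- `9 - cs` -/
  gr : ℤ
  /-- `(9 - cs) eta` -/
  a : ℤ
  c : ℤ

/-- numerators over `4 * 10^5`, `10^10` -/
def nP (R : Rec) : ℤ := Int.add (Int.mul 4 (Int.sub 900000 R.cs)) (Int.mul 3 (Int.add R.mu1 R.mu2))
def nR (R : Rec) : ℤ := Int.mul 4 (Int.sub 900000 R.cs)
def nE (R : Rec) : ℤ := Int.mul (Int.sub 900000 R.cs) R.e1
def nF (R : Rec) : ℤ := Int.mul (Int.sub 900000 R.cs) R.e2

/-- THE TABLES -/
def mkB (R : Rec) (s : ℕ) : BT where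
  gp := rd (Nat.pow 2 (Nat.succ s)) 400000 (nP R)
  gr := rd (Nat.pow 2 (Nat.succ s)) 400000 (nR R)
  a := rd (Nat.pow 2 (Nat.succ s)) 10000000000 (nE R)
  c := rd (Nat.pow 2 (Nat.succ s)) 10000000000 (nF R)

/-- bounds of the digits -/
def mP (T : BT) : ℕ := Nat.add (Nat.add T.gp.natAbs (Nat.mul 3 T.a.natAbs)) (Nat.mul 3 T.c.natAbs)
def mR (T : BT) : ℕ := Nat.add (Nat.add T.gr.natAbs (Nat.mul 3 T.a.natAbs)) (Nat.mul 3 T.c.natAbs)

/-- **THE CHECK** -/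
def okB (R : Rec) (b s : ℕ) (T : BT) : Bool :=
  bif Nat.ble (Nat.add s 3) b then
    bif eqI T.gp (rd (Nat.pow 2 (Nat.succ s)) 400000 (nP R)) then
      bif eqI T.gr (rd (Nat.pow 2 (Nat.succ s)) 400000 (nR R)) then
        bif eqI T.a (rd (Nat.pow 2 (Nat.succ s)) 10000000000 (nE R)) then
          bif eqI T.c (rd (Nat.pow 2 (Nat.succ s)) 10000000000 (nF R)) then
            bif Nat.blt (mP T) (Nat.pow 2 b) then Nat.blt (mR T) (Nat.pow 2 b) else false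
          else false
        else false
      else false
    else false
  else false

theorem okB_iff {R : Rec} {b s : ℕ} {T : BT} (h : okB R b s T = true) :
    s + 3 ≤ b ∧ T.gp = rd (Nat.pow 2 (Nat.succ s)) 400000 (nP R) ∧ T.gr = rd (Nat.pow 2 (Nat.succ s)) 400000 (nR R) ∧
      T.a = rd (Nat.pow 2 (Nat.succ s)) 10000000000 (nE R) ∧ T.c = rd (Nat.pow 2 (Nat.succ s)) 10000000000 (nF R) ∧
      T.gp.natAbs + 3 * T.a.natAbs + 3 * T.c.natAbs < 2 ^ b ∧ T.gr.natAbs + 3 * T.a.natAbs + 3 * T.c.natAbs < 2 ^ b := by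
  unfold okB at h
  simp only [bif_iff] at h
  obtain ⟨h1, h2, h3, h4, h5, h6, h7⟩ := h
  rw [blt_iff] at h6 h7
  exact ⟨Nat.le_of_ble_eq_true h1, eqI_iff h2, eqI_iff h3, eqI_iff h4, eqI_iff h5, of_decide_eq_true h6,
    of_decide_eq_true h7⟩

/-! ### the tables of `hBlk` -/

theorem zero_HTab {b s H : ℕ} {g0 : ℝ} {g2 : ℂ} {g a c : ℤ} (hs : s + 3 ≤ b)
    (rg : g.natAbs + 3 * a.natAbs + 3 * c.natAbs < 2 ^ b) (h0 : |2 ^ (s + 1) * g0 - g| ≤ 1)
    (h1 : |2 ^ (s + 1) * g2.re - a| ≤ 1) (h2 : |2 ^ (s + 1) * g2.im - c| ≤ 1) :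
    HTab b s H g0 g2 (fun _ => 0) g a c (of b (2 * (H + 1))) (of b (2 * (H + 1))) := by
  have z : ∀ n : ℤ, cv g0 g2 (fun _ => 0) n = 0 := fun n => by unfold cv; simp
  refine ⟨hs, rg, h0, h1, h2, fun k hk => ?_, fun k hk => ?_, fun k hk => ?_, fun k hk => ?_, of_lt _ _, of_lt _ _⟩
  · rw [z, dz_of _ _ _ (by omega)]; simp
  · rw [z, dz_of _ _ _ (by omega)]; simp
  · rw [dz_of _ _ _ (by omega)]; simp
  · rw [dz_of _ _ _ (by omega)]; simp

/-- the block of a band form without constants -/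
theorem zero_blk {b s H base n : ℕ} {g0 : ℝ} {g2 : ℂ} {g a c : ℤ} (hb : 0 < base) (hn : base + 2 * H < n)
    (T : HTab b s H g0 g2 (fun _ => 0) g a c (of b (2 * (H + 1))) (of b (2 * (H + 1)))) :
    PBlk n (2 * (H + 1)) b (s + 1) 4 (AH b H base g a c (of b (2 * (H + 1)))) (BH b s H base (of b (2 * (H + 1))))
      (fun v => BR2 H g0 g2 (hV (2 * H) base v)) := by
  have h := hBlk hb hn T
  simp only [sub_zero] at h
  exact h

section

variable {R : Rec} {c : CD} {b s K H : ℕ} {T : BT}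

theorem bd_val (i : IsRec R c) (m2 : c.mu2 = (R.mu2 : ℝ) / 100000) :
    9 - c.P.cs + 3 / 4 * (c.mu1 + c.mu2) = (nP R : ℝ) / (400000 : ℕ) ∧ 9 - c.P.cs = (nR R : ℝ) / (400000 : ℕ) ∧
      (((9 - c.P.cs : ℝ) : ℂ) * c.P.eta).re = (nE R : ℝ) / (10000000000 : ℕ) ∧
      (((9 - c.P.cs : ℝ) : ℂ) * c.P.eta).im = (nF R : ℝ) / (10000000000 : ℕ) := by
  have q1 : R.par.cs = (R.cs : ℝ) / 100000 := rfl
  have q3 : R.par.eta = ((R.e1 : ℂ) + Complex.I * (R.e2 : ℂ)) / 100000 := rfl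
  have e1 : nP R = 4 * (900000 - R.cs) + 3 * (R.mu1 + R.mu2) := rfl
  have e2 : nR R = 4 * (900000 - R.cs) := rfl
  have e3 : nE R = (900000 - R.cs) * R.e1 := rfl
  have e4 : nF R = (900000 - R.cs) * R.e2 := rfl
  have G2 : ((9 - c.P.cs : ℝ) : ℂ) * c.P.eta = ((nE R : ℂ) + Complex.I * (nF R : ℂ)) / (10000000000 : ℕ) := by
    rw [i.P, q1, q3, e3, e4]
    push_cast
    ring
  refine ⟨?_, ?_, ?_, ?_⟩
  · rw [i.mu1, i.P, q1, m2, e1]; push_cast; ring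
  · rw [i.P, q1, e2]; push_cast; ring
  · rw [G2, Complex.div_natCast_re]; simp
  · rw [G2, Complex.div_natCast_im]; simp

theorem bd_HTab (h : okB R b s T = true) (i : IsRec R c) (m2 : c.mu2 = (R.mu2 : ℝ) / 100000) :
    HTab b s H (9 - c.P.cs + 3 / 4 * (c.mu1 + c.mu2)) (((9 - c.P.cs : ℝ) : ℂ) * c.P.eta) (fun _ => 0) T.gp T.a T.c
        (of b (2 * (H + 1))) (of b (2 * (H + 1))) ∧
      HTab b s H (9 - c.P.cs) (((9 - c.P.cs : ℝ) : ℂ) * c.P.eta) (fun _ => 0) T.gr T.a T.c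
        (of b (2 * (H + 1))) (of b (2 * (H + 1))) := by
  obtain ⟨hs, e1, e2, e3, e4, r1, r2⟩ := okB_iff h
  obtain ⟨v1, v2, v3, v4⟩ := bd_val i m2
  have k3 : |2 ^ (s + 1) * (((9 - c.P.cs : ℝ) : ℂ) * c.P.eta).re - T.a| ≤ 1 := by
    rw [e3]; exact rd2 (by norm_num) v3
  have k4 : |2 ^ (s + 1) * (((9 - c.P.cs : ℝ) : ℂ) * c.P.eta).im - T.c| ≤ 1 := by
    rw [e4]; exact rd2 (by norm_num) v4
  refine ⟨zero_HTab hs r1 ?_ k3 k4, zero_HTab hs r2 ?_ k3 k4⟩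
  · rw [e1]; exact rd2 (by norm_num) v1
  · rw [e2]; exact rd2 (by norm_num) v2

/-- **the band block of `p`** -/
theorem bd_p (h : okB R b s T = true) (i : IsRec R c) (m2 : c.mu2 = (R.mu2 : ℝ) / 100000) :
    PBlk (nt K (2 * H)) (2 * (H + 1)) b (s + 1) 4 (AH b H (bp K) T.gp T.a T.c (of b (2 * (H + 1))))
      (BH b s H (bp K) (of b (2 * (H + 1))))
      (fun v => BR2 H (9 - c.P.cs + 3 / 4 * (c.mu1 + c.mu2)) (((9 - c.P.cs : ℝ) : ℂ) * c.P.eta) (pV K (2 * H) v)) :=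
  zero_blk (by unfold bp; omega) (by unfold nt; omega) (bd_HTab h i m2).1

/-- **the band block of `r`** -/
theorem bd_r (h : okB R b s T = true) (i : IsRec R c) (m2 : c.mu2 = (R.mu2 : ℝ) / 100000) :
    PBlk (nt K (2 * H)) (2 * (H + 1)) b (s + 1) 4 (AH b H (br K (2 * H)) T.gr T.a T.c (of b (2 * (H + 1))))
      (BH b s H (br K (2 * H)) (of b (2 * (H + 1))))
      (fun v => BR2 H (9 - c.P.cs) (((9 - c.P.cs : ℝ) : ℂ) * c.P.eta) (rV K (2 * H) v)) :=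
  zero_blk (by unfold br bp; omega) (by unfold nt br; omega) (bd_HTab h i m2).2

end

/-! ### digit bounds -/

section

variable {b s H base : ℕ} {g a c : ℤ}

theorem dz_AH_le (rg : g.natAbs + 3 * a.natAbs + 3 * c.natAbs < 2 ^ b) {k : ℕ} (hk : k < 2 * (H + 1)) (i : ℕ) :
    (dz b k (AH b H base g a c (of b (2 * (H + 1))) i)).natAbs ≤ g.natAbs + 3 * a.natAbs + 3 * c.natAbs := by
  rw [AH_eq]
  split_ifs
  · rw [dz_of _ _ _ hk]; simp
  · by_cases h : k < H + 1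
    · rw [dz_ct_lo _ _ _ _ _ h, dz_pkS (fun _ _ => lt_of_le_of_lt ((coef_le _ _).trans (sN_lRe _ _ _ _)) rg) h]
      exact (coef_le _ _).trans (sN_lRe _ _ _ _)
    · obtain ⟨j, rfl⟩ : ∃ j, k = H + 1 + j := ⟨k - (H + 1), by omega⟩
      rw [dz_ct_hi _ _ _ _ _ (pkS_lt (fun _ _ => lt_of_le_of_lt ((coef_le _ _).trans (sN_lRe _ _ _ _)) rg)),
        dz_pkS (fun _ _ => lt_of_le_of_lt ((coef_le _ _).trans (sN_lIm _ _ _ _)) rg) (by omega)]
      exact (coef_le _ _).trans (sN_lIm _ _ _ _)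
  · rw [dz_of _ _ _ hk]; simp

theorem wI_le (s k : ℕ) : (wI s k).natAbs ≤ 2 ^ (s + 2) := by
  have e1 : ((2 ^ (s + 1) : ℤ)).natAbs = 2 ^ (s + 1) := by rw [Int.natAbs_pow]; rfl
  have e2 : ((2 ^ (s + 2) : ℤ)).natAbs = 2 ^ (s + 2) := by rw [Int.natAbs_pow]; rfl
  unfold wI
  split_ifs
  · rw [e1]; exact Nat.pow_le_pow_right (by norm_num) (by omega)
  · rw [e2]

theorem dz_BH_le (hs : s + 3 ≤ b) {k : ℕ} (hk : k < 2 * (H + 1)) (i : ℕ) :
    (dz b k (BH b s H base (of b (2 * (H + 1))) i)).natAbs ≤ 2 ^ (s + 2) := by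
  rcases BH_eq b s H base (of b (2 * (H + 1))) i with h | h
  · rw [h]
    refine (dz_AH_le (wI_rg hs _) hk i).trans ?_
    have := wI_le s (i - base)
    simpa using this
  · rw [BH_low _ _ _ _ _ _ h]
    have h2 := wI_rg hs 1
    unfold wI at h2
    rw [if_neg (by norm_num)] at h2
    refine (dz_AH_le h2 hk i).trans ?_
    have e2 : ((2 ^ (s + 2) : ℤ)).natAbs = 2 ^ (s + 2) := by rw [Int.natAbs_pow]; rfl
    rw [e2]
    simp

theorem natAbs_real {x : ℤ} {m : ℕ} (h : x.natAbs ≤ m) : |(x : ℝ)| ≤ m := by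
  have : |x| ≤ (m : ℤ) := by rw [Int.abs_eq_natAbs]; exact_mod_cast h
  exact_mod_cast this

end

/-! ### the blocks of the matrix check -/

/-- the columns of `gBP` -/
def cAP (b K H : ℕ) (T : BT) : List ℕ := col (nt K (2 * H)) (AH b H (bp K) T.gp T.a T.c (of b (2 * (H + 1))))
def cBP (b s K H : ℕ) : List ℕ := col (nt K (2 * H)) (BH b s H (bp K) (of b (2 * (H + 1))))
/-- the columns of `gBR` -/
def cAR (b K H : ℕ) (T : BT) : List ℕ := col (nt K (2 * H)) (AH b H (br K (2 * H)) T.gr T.a T.c (of b (2 * (H + 1))))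
def cBR (b s K H : ℕ) : List ℕ := col (nt K (2 * H)) (BH b s H (br K (2 * H)) (of b (2 * (H + 1))))

/-- the error of a block: `n` coordinates, `nf` rows, weight `2 d`, digits at most `m` resp. `2 ^ (s + 2)` -/
def eN (n nf d m s : ℕ) : ℕ :=
  Nat.mul (Nat.mul 2 d) (Nat.mul n (Nat.mul nf (Nat.add (Nat.mul 4 (Nat.add m (Nat.pow 2 (Nat.succ (Nat.succ s))))) 16)))

section

variable {R : Rec} {c : CD} {b s K H : ℕ} {T : BT}

/-- a block with uniform bounds of the digits -/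
theorem PBlk.lbN {n nf b s : ℕ} {A B : ℕ → ℕ} {g : (ℕ → ℝ) → ℝ} (h : PBlk n nf b (s + 1) 4 A B g) {m d : ℕ} {G : ℝ}
    (hG : G = 2 * d) (hA : ∀ k < nf, ∀ i, (dz b k (A i)).natAbs ≤ m)
    (hB : ∀ k < nf, ∀ i, (dz b k (B i)).natAbs ≤ 2 ^ (s + 2)) :
    LB n (G * (2 ^ (s + 1) * 2 ^ (s + 1))) g (fun v => Blk.val b n v (.bl false d nf (col n A) (col n B)))
      (eN n nf d m s) := by
  have k := h.lb (by norm_num) (G := G) (w := 1) (sg := false) (c := d) (by rw [hG]; simp [sgr])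
    (a := fun _ => (m : ℝ)) (a' := fun _ => ((2 ^ (s + 2) : ℕ) : ℝ))
    (fun k hk i hi => by rw [row_col A k hi]; exact natAbs_real (hA k hk i))
    (fun k hk i hi => by rw [row_col B k hi]; exact natAbs_real (hB k hk i))
    (fun _ _ => Nat.cast_nonneg _) (fun _ _ => Nat.cast_nonneg _)
  refine LB.mono (LB.congr k (fun v _ => (one_mul _).symm) fun v _ => rfl) (fun _ _ => le_rfl) (le_of_eq ?_)
  unfold eP
  have e1 : eN n nf d m s = 2 * d * (n * (nf * (4 * (m + 2 ^ (s + 2)) + 16))) := rfl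
  rw [e1, Finset.sum_const, Finset.card_range, nsmul_eq_mul]
  push_cast
  ring

/-- **the piece `gBP`** -/
theorem lb_p (h : okB R b s T = true) (i : IsRec R c) (m2 : c.mu2 = (R.mu2 : ℝ) / 100000) {G : ℝ} {d : ℕ}
    (hG : G = 2 * d) :
    LB (nt K (2 * H)) (G * (2 ^ (s + 1) * 2 ^ (s + 1))) (fun v => gBP c K H v)
      (fun v => Blk.val b (nt K (2 * H)) v (.bl false d (2 * (H + 1)) (cAP b K H T) (cBP b s K H)))
      (eN (nt K (2 * H)) (2 * (H + 1)) d (mP T) s) :=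
  PBlk.lbN (bd_p h i m2) hG (fun _ hk i => dz_AH_le (okB_iff h).2.2.2.2.2.1 hk i)
    (fun _ hk i => dz_BH_le (okB_iff h).1 hk i)

/-- **the piece `gBR`** -/
theorem lb_r (h : okB R b s T = true) (i : IsRec R c) (m2 : c.mu2 = (R.mu2 : ℝ) / 100000) {G : ℝ} {d : ℕ}
    (hG : G = 2 * d) :
    LB (nt K (2 * H)) (G * (2 ^ (s + 1) * 2 ^ (s + 1))) (fun v => gBR c K H v)
      (fun v => Blk.val b (nt K (2 * H)) v (.bl false d (2 * (H + 1)) (cAR b K H T) (cBR b s K H)))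
      (eN (nt K (2 * H)) (2 * (H + 1)) d (mR T) s) :=
  PBlk.lbN (bd_r h i m2) hG (fun _ hk i => dz_AH_le (okB_iff h).2.2.2.2.2.2 hk i)
    (fun _ hk i => dz_BH_le (okB_iff h).1 hk i)

/-- **the fields `bp`, `br` of helper42's `Pieces`** (`G = 10^9`, `d = 5 * 10^8`) -/
theorem lbb_p (h : okB R b s T = true) (i : IsRec R c) (m2 : c.mu2 = (R.mu2 : ℝ) / 100000) {G : ℝ} {d : ℕ}
    (hG : G = 2 * d) :
    LBB b (nt K (2 * H)) (G * (2 ^ (s + 1) * 2 ^ (s + 1))) (fun v => gBP c K H v)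
      [.bl false d (2 * (H + 1)) (cAP b K H T) (cBP b s K H)] (eN (nt K (2 * H)) (2 * (H + 1)) d (mP T) s) :=
  LBB.one (lb_p h i m2 hG)

theorem lbb_r (h : okB R b s T = true) (i : IsRec R c) (m2 : c.mu2 = (R.mu2 : ℝ) / 100000) {G : ℝ} {d : ℕ}
    (hG : G = 2 * d) :
    LBB b (nt K (2 * H)) (G * (2 ^ (s + 1) * 2 ^ (s + 1))) (fun v => gBR c K H v)
      [.bl false d (2 * (H + 1)) (cAR b K H T) (cBR b s K H)] (eN (nt K (2 * H)) (2 * (H + 1)) d (mR T) s) :=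
  LBB.one (lb_r h i m2 hG)

end

end Helper68.SH
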