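import Pool.Agent.Helper68.SH.BBlk
import Pool.Agent.Helper70.SH.Asm

/-!
# Project RC, SHARP, cell engine: the band blocks of a cell

`bpB`, `brB`: the lists of blocks; `bpE`, `brE`: the errors; `f_bp`, `f_br`: the fields `bp`, `br` of helper42's `Pieces`
for the cell data of a record (scale `10^9 * 2^112`).
-/

set_option autoImplicit false

namespace Helper68.SH

open Helper95.SH Helper55.SH
open Helper49.Cell (Rec Crt)
open Helper42.SH (LBB gBP gBR)
open Helper25.SH.Mat (Blk)
open Helper70.SH (Len cd)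

/-- the band block of `p` -/
def bpB (b K H : ℕ) (T : BT) : List Blk := [.bl false 500000000 (2 * (H + 1)) (cAP b K H T) (cBP b 55 K H)]
/-- the band block of `r` -/
def brB (b K H : ℕ) (T : BT) : List Blk := [.bl false 500000000 (2 * (H + 1)) (cAR b K H T) (cBR b 55 K H)]
/-- their errors -/
def bpE (K H : ℕ) (T : BT) : ℕ := eN (nt K (2 * H)) (2 * (H + 1)) 500000000 (mP T) 55
def brE (K H : ℕ) (T : BT) : ℕ := eN (nt K (2 * H)) (2 * (H + 1)) 500000000 (mR T) 55

section

variable {R : Rec} {C : Crt} {K0 b K H : ℕ} {T : BT}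

theorem isRec (h : R.ok C = true) (len : Len R K0) (s : ℕ) : IsRec R (cd R h len s) :=
  ⟨rfl, rfl, rfl, rfl, rfl, rfl, rfl, rfl⟩

theorem S_eq : (10 : ℝ) ^ 9 * 2 ^ 112 = 10 ^ 9 * (2 ^ (55 + 1) * 2 ^ (55 + 1)) := by norm_num

/-- **the field `bp`** -/
theorem f_bp (h : R.ok C = true) (len : Len R K0) (s : ℕ) (k : okB R b 55 T = true) :
    LBB b (nt K (2 * H)) (10 ^ 9 * 2 ^ 112) (fun v => gBP (cd R h len s) K H v) (bpB b K H T)
      ((bpE K H T : ℕ) : ℝ) := by
  rw [S_eq]
  exact lbb_p k (isRec h len s) rfl (by norm_num)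

/-- **the field `br`** -/
theorem f_br (h : R.ok C = true) (len : Len R K0) (s : ℕ) (k : okB R b 55 T = true) :
    LBB b (nt K (2 * H)) (10 ^ 9 * 2 ^ 112) (fun v => gBR (cd R h len s) K H v) (brB b K H T)
      ((brE K H T : ℕ) : ℝ) := by
  rw [S_eq]
  exact lbb_r k (isRec h len s) rfl (by norm_num)

end

end Helper68.SH
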